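import Pool.Agent.Helper70.SUB.SheetG

/-!
Row GAPX of the project SUB: a gap between the minima.
-/

set_option autoImplicit false

namespace Pool.Agent.Helper99.SUB

open Finset Pool.Agent.Helper70.SUB

theorem GAPX : ST_GAPX := by
  intro n C ε hn hC hε
  have hn0 : (0 : ℝ) < n := by exact_mod_cast hn
  set η : ℝ := ε / (2 * (n : ℝ) ^ 2) with hη
  have hη0 : 0 < η := by positivity
  refine ⟨η, max 1 ((C ^ (n + 1) + 1) ^ (2 / ε)), hη0, ?_⟩
  intro Q lam hQ hpos hmono hex hprod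
  have hQ1 : 1 ≤ Q := (le_max_left _ _).trans hQ
  have hQ0 : 0 < Q := lt_of_lt_of_le one_pos hQ1
  have hQ2 : (C ^ (n + 1) + 1) ^ (2 / ε) ≤ Q := (le_max_right _ _).trans hQ
  have hC0 : 0 < C := lt_of_lt_of_le one_pos hC
  by_contra hcon
  push Not at hcon
  set q : ℝ := Q ^ η with hq
  have hq1 : 1 ≤ q := Real.one_le_rpow hQ1 hη0.le
  have hq0 : 0 < q := lt_of_lt_of_le one_pos hq1
  -- the bound
  have key : ∀ i : ℕ, ∀ hi : i < n, lam ⟨i, hi⟩ ≤ C * q ^ i := by
    intro i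
    induction i with
    | zero =>
      intro hi
      obtain ⟨k, hk⟩ := hex
      have h1 : lam ⟨0, hi⟩ ≤ lam k := hmono (Fin.le_def.2 (Nat.zero_le _))
      rw [pow_zero, mul_one]
      exact h1.trans hk
    | succ i ih =>
      intro hi
      have hi' : i < n := Nat.lt_of_succ_lt hi
      have h1 := ih hi'
      by_cases h2 : lam ⟨i + 1, hi⟩ ≤ C
      · refine h2.trans ?_
        have : 1 ≤ q ^ (i + 1) := one_le_pow₀ hq1
        nlinarith
      · push Not at h2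
        have h3 : Q ^ (-η) * lam ⟨i + 1, hi⟩ < lam ⟨i, hi'⟩ := by
          by_contra h4
          push Not at h4
          exact absurd h2 (not_lt.2 (hcon ⟨i, hi'⟩ ⟨i + 1, hi⟩ rfl h4))
        have h5 : Q ^ (-η) = q⁻¹ := by rw [Real.rpow_neg hQ0.le]
        rw [h5, inv_mul_lt_iff₀ hq0] at h3
        calc lam ⟨i + 1, hi⟩ ≤ q * lam ⟨i, hi'⟩ := h3.le
          _ ≤ q * (C * q ^ i) := by gcongr
          _ = C * q ^ (i + 1) := by ring
  have hall : ∀ k : Fin n, lam k ≤ C * q ^ n := by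
    intro k
    refine (key k k.2).trans ?_
    gcongr
    exact k.2.le
  have hp : ∏ k, lam k ≤ (C * q ^ n) ^ n := by
    calc ∏ k, lam k ≤ ∏ _k : Fin n, (C * q ^ n) :=
          prod_le_prod (fun k _ => (hpos k).le) (fun k _ => hall k)
      _ = (C * q ^ n) ^ n := by rw [prod_const, card_univ, Fintype.card_fin]
  have h1 : Q ^ ε ≤ C ^ (n + 1) * Q ^ (ε / 2) := by
    refine hprod.trans ?_
    have h2 : C * ∏ k, lam k ≤ C * (C * q ^ n) ^ n := by gcongr
    refine h2.trans (le_of_eq ?_)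
    have h3 : (q ^ n) ^ n = Q ^ (ε / 2) := by
      rw [← pow_mul, hq, ← Real.rpow_natCast, ← Real.rpow_mul hQ0.le]
      congr 1
      rw [hη]
      push_cast
      field_simp
    rw [mul_pow, h3]
    ring
  have h4 : Q ^ ε = Q ^ (ε / 2) * Q ^ (ε / 2) := by
    rw [← Real.rpow_add hQ0]
    congr 1
    ring
  have h5 : 0 < Q ^ (ε / 2) := Real.rpow_pos_of_pos hQ0 _
  rw [h4] at h1
  have h6 : Q ^ (ε / 2) ≤ C ^ (n + 1) := le_of_mul_le_mul_right h1 h5
  have h7 : C ^ (n + 1) + 1 ≤ Q ^ (ε / 2) := by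
    have h8 : ((C ^ (n + 1) + 1) ^ (2 / ε)) ^ (ε / 2) ≤ Q ^ (ε / 2) :=
      Real.rpow_le_rpow (by positivity) hQ2 (by positivity)
    rw [← Real.rpow_mul (by positivity)] at h8
    have h9 : 2 / ε * (ε / 2) = 1 := by field_simp
    rwa [h9, Real.rpow_one] at h8
  linarith

end Pool.Agent.Helper99.SUB
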