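import Pool.Agent.Helper70.SUB.SheetA

/-!
Row LAU1 of the project SUB: proportional logarithmic derivatives.
-/

set_option autoImplicit false

namespace Pool.Agent.Helper99.SUB

open Finset Pool.Agent.Helper70.SUB

/-- the pairing -/
def pair {r : ℕ} (δ m : Fin r → ℤ) : ℤ := ∑ k, δ k * m k

theorem pair_add {r : ℕ} (δ m m' : Fin r → ℤ) : pair δ (m + m') = pair δ m + pair δ m' := by
  unfold pair
  rw [← sum_add_distrib]
  exact sum_congr rfl fun k _ => by rw [Pi.add_apply]; ring

theorem pair_sub {r : ℕ} (δ m m' : Fin r → ℤ) : pair δ (m - m') = pair δ m - pair δ m' := by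
  unfold pair
  rw [← sum_sub_distrib]
  exact sum_congr rfl fun k _ => by rw [Pi.sub_apply]; ring

open Polynomial in
/-- a vector which separates finitely many exponents -/
theorem exists_sep {r : ℕ} (E : Finset (Fin r → ℤ)) :
    ∃ δ : Fin r → ℤ, ∀ m ∈ E, ∀ m' ∈ E, pair δ m = pair δ m' → m = m' := by
  classical
  set p : (Fin r → ℤ) → ℤ[X] := fun d => ∑ k : Fin r, C (d k) * X ^ (k : ℕ) with hp
  have hp0 : ∀ d : Fin r → ℤ, d ≠ 0 → p d ≠ 0 := by
    intro d hd h
    obtain ⟨k, hk⟩ := Function.ne_iff.1 hd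
    apply hk
    have h1 := congrArg (fun f => Polynomial.coeff f (k : ℕ)) h
    simp only [hp, Polynomial.finsetSum_coeff, Polynomial.coeff_C_mul, Polynomial.coeff_X_pow,
      Polynomial.coeff_zero] at h1
    rw [sum_eq_single k] at h1
    · simpa using h1
    · intro b _ hb
      rw [if_neg (fun h2 => hb (Fin.ext h2.symm)), mul_zero]
    · intro h2
      exact absurd (mem_univ k) h2
  set D : Finset (Fin r → ℤ) := ((E ×ˢ E).image (fun x => x.1 - x.2)).filter (fun d => d ≠ 0)
    with hD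
  set P : ℤ[X] := ∏ d ∈ D, p d with hP
  have hPne : P ≠ 0 := by
    rw [hP]
    exact prod_ne_zero_iff.2 fun d hd => hp0 d (mem_filter.1 hd).2
  obtain ⟨B, hB⟩ : ∃ B : ℤ, P.eval B ≠ 0 := by
    by_contra h
    push Not at h
    exact hPne (Polynomial.funext fun x => by rw [h x, Polynomial.eval_zero])
  refine ⟨fun k => B ^ (k : ℕ), fun m hm m' hm' h => ?_⟩
  by_contra hne
  have hd : m - m' ∈ D := by
    rw [hD]
    exact mem_filter.2 ⟨mem_image.2 ⟨(m, m'), mem_product.2 ⟨hm, hm'⟩, rfl⟩, sub_ne_zero.2 hne⟩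
  have h1 : (p (m - m')).eval B = 0 := by
    rw [hp]
    simp only [Polynomial.eval_finsetSum, Polynomial.eval_mul, Polynomial.eval_C,
      Polynomial.eval_pow, Polynomial.eval_X]
    have h2 : pair (fun k : Fin r => B ^ (k : ℕ)) (m - m') = 0 := by
      rw [pair_sub, h, sub_self]
    rw [← h2]
    unfold pair
    exact sum_congr rfl fun k _ => by rw [mul_comm]
  apply hB
  rw [hP, Polynomial.eval_prod]
  exact prod_eq_zero hd h1

/-- the top exponent -/
theorem exists_top {r : ℕ} (δ : Fin r → ℤ) (A : Finset (Fin r → ℤ)) (hA : A.Nonempty) :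
    ∃ a ∈ A, ∀ b ∈ A, pair δ b ≤ pair δ a := exists_max_image A (pair δ) hA

theorem uniq_top {r : ℕ} {δ : Fin r → ℤ} {A B : Finset (Fin r → ℤ)} {a b : Fin r → ℤ}
    (ha : ∀ x ∈ A, pair δ x ≤ pair δ a) (hb : ∀ x ∈ B, pair δ x ≤ pair δ b)
    (hA : ∀ x ∈ A, pair δ x = pair δ a → x = a) (hB : ∀ x ∈ B, pair δ x = pair δ b → x = b) :
    UniqueAdd A B a b := by
  intro x y hx hy h
  have h1 := congrArg (pair δ) h
  rw [pair_add, pair_add] at h1
  have h2 := ha x hx
  have h3 := hb y hy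
  exact ⟨hA x hx (by linarith), hB y hy (by linarith)⟩

/-- comparison of the top coefficients -/
theorem top_eq {r : ℕ} (hL : ST_LAUB) {δ : Fin r → ℤ} {F G : Lau r} {E : Finset (Fin r → ℤ)}
    (hE : ∀ m ∈ E, ∀ m' ∈ E, pair δ m = pair δ m' → m = m') (hF : F.coeff.support ⊆ E)
    (hG : G.coeff.support ⊆ E) {a b : Fin r → ℤ} (ha : a ∈ F.coeff.support)
    (hb : b ∈ G.coeff.support) (ha' : ∀ x ∈ F.coeff.support, pair δ x ≤ pair δ a)
    (hb' : ∀ x ∈ G.coeff.support, pair δ x ≤ pair δ b)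
    (h : F * drv δ G = G * drv δ F) : a = b := by
  have hc : ∀ (K : Lau r) (m : Fin r → ℤ), (drv δ K).coeff m = ((pair δ m : ℤ) : ℚ) * K.coeff m :=
    fun K m => ((hL r).2 δ).2.2.2 K m
  have hsub : ∀ K : Lau r, (drv δ K).coeff.support ⊆ K.coeff.support := by
    intro K m hm
    rw [Finsupp.mem_support_iff] at hm ⊢
    intro h0
    apply hm
    rw [hc, h0, mul_zero]
  have hA : ∀ x ∈ F.coeff.support, pair δ x = pair δ a → x = a :=
    fun x hx hxa => hE x (hF hx) a (hF ha) hxa
  have hB : ∀ x ∈ G.coeff.support, pair δ x = pair δ b → x = b :=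
    fun x hx hxb => hE x (hG hx) b (hG hb) hxb
  have h1 : (F * drv δ G).coeff (a + b) = F.coeff a * (drv δ G).coeff b :=
    AddMonoidAlgebra.coeff_mul_add_of_uniqueAdd
      (uniq_top ha' (fun x hx => hb' x (hsub G hx)) hA (fun x hx => hB x (hsub G hx)))
  have h2 : (G * drv δ F).coeff (b + a) = G.coeff b * (drv δ F).coeff a :=
    AddMonoidAlgebra.coeff_mul_add_of_uniqueAdd
      (uniq_top hb' (fun x hx => ha' x (hsub F hx)) hB (fun x hx => hA x (hsub F hx)))
  rw [h, add_comm a b, h2, hc, hc] at h1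
  have hfa : F.coeff a ≠ 0 := Finsupp.mem_support_iff.1 ha
  have hgb : G.coeff b ≠ 0 := Finsupp.mem_support_iff.1 hb
  have h3 : ((pair δ a : ℤ) : ℚ) = ((pair δ b : ℤ) : ℚ) := by
    have h4 : (G.coeff b * F.coeff a) * ((pair δ a : ℤ) : ℚ) =
        (G.coeff b * F.coeff a) * ((pair δ b : ℤ) : ℚ) := by linear_combination h1
    exact mul_left_cancel₀ (mul_ne_zero hgb hfa) h4
  exact hE a (hF ha) b (hG hb) (by exact_mod_cast h3)

theorem LAU1 (hL : ST_LAUB) : ST_LAU1 := by
  classical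
  intro r F G hG h
  by_cases hF : F = 0
  · exact ⟨0, by rw [hF, zero_smul]⟩
  obtain ⟨δ, hδ⟩ := exists_sep (F.coeff.support ∪ G.coeff.support)
  have hFs : F.coeff.support.Nonempty := by
    rw [Finsupp.support_nonempty_iff, ne_eq, AddMonoidAlgebra.coeff_eq_zero]
    exact hF
  have hGs : G.coeff.support.Nonempty := by
    rw [Finsupp.support_nonempty_iff, ne_eq, AddMonoidAlgebra.coeff_eq_zero]
    exact hG
  obtain ⟨a, ha, ha'⟩ := exists_top δ _ hFs
  obtain ⟨b, hb, hb'⟩ := exists_top δ _ hGs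
  have hab : a = b := top_eq hL hδ subset_union_left subset_union_right ha hb ha' hb' (h δ)
  subst hab
  have hga : G.coeff a ≠ 0 := Finsupp.mem_support_iff.1 hb
  refine ⟨F.coeff a / G.coeff a, ?_⟩
  set c : ℚ := F.coeff a / G.coeff a with hc
  by_contra hne
  set K : Lau r := F - c • G with hK
  have hK0 : K ≠ 0 := by
    rw [hK]
    exact sub_ne_zero.2 hne
  have hco : ∀ (K : Lau r) (m : Fin r → ℤ),
      (drv δ K).coeff m = ((pair δ m : ℤ) : ℚ) * K.coeff m :=
    fun K m => ((hL r).2 δ).2.2.2 K m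
  have hKc : ∀ m, K.coeff m = F.coeff m - c * G.coeff m := by
    intro m
    rw [hK, AddMonoidAlgebra.coeff_sub, AddMonoidAlgebra.coeff_smul, Finsupp.sub_apply,
      Finsupp.smul_apply, smul_eq_mul]
  have hdK : drv δ K = drv δ F - c • drv δ G := by
    apply AddMonoidAlgebra.coeff_injective
    ext m
    rw [hco, hKc]
    have h9 : (drv δ F - c • drv δ G).coeff m = (drv δ F).coeff m - c * (drv δ G).coeff m := by
      rw [AddMonoidAlgebra.coeff_sub, AddMonoidAlgebra.coeff_smul, Finsupp.sub_apply,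
        Finsupp.smul_apply, smul_eq_mul]
    rw [h9, hco, hco]
    ring
  have hrel : K * drv δ G = G * drv δ K := by
    rw [hdK, hK, sub_mul, mul_sub, h δ, smul_mul_assoc, mul_smul_comm]
  have hKs : K.coeff.support ⊆ F.coeff.support ∪ G.coeff.support := by
    intro m hm
    rw [Finsupp.mem_support_iff, hKc] at hm
    rw [mem_union, Finsupp.mem_support_iff, Finsupp.mem_support_iff]
    by_contra h1
    push Not at h1
    rw [h1.1, h1.2] at hm
    simp at hm
  have hKn : K.coeff.support.Nonempty := by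
    rw [Finsupp.support_nonempty_iff, ne_eq, AddMonoidAlgebra.coeff_eq_zero]
    exact hK0
  obtain ⟨e, he, he'⟩ := exists_top δ _ hKn
  have hea : e = a := top_eq hL hδ hKs subset_union_right he hb he' hb' hrel
  subst hea
  have h5 := Finsupp.mem_support_iff.1 he
  apply h5
  rw [hKc, hc]
  field_simp
  ring

end Pool.Agent.Helper99.SUB
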